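import Pool.Agent.helper49.SP.SpecAS

/-!
# Project sp (MP_7800de_pr), module F2: semantics of `fHit` and `fGap`
-/

namespace TP

open DP MeasureTheory

theorem F2_sd_lt_iff {u v : V} {n : ℕ} :
    sd u v < n ↔ (u.1 - n < v.1 ∧ v.1 < u.1 + n) ∧ u.2 - n < v.2 ∧ v.2 < u.2 + n := by
  unfold sd
  omega

theorem F2_sd_le_iff {u v : V} {n : ℕ} :
    sd u v ≤ n ↔ (u.1 - n ≤ v.1 ∧ v.1 ≤ u.1 + n) ∧ u.2 - n ≤ v.2 ∧ v.2 ≤ u.2 + n := by
  unfold sd
  omega

theorem F2 : F2_stmt := by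
  intro u X z x hu hx
  have hx1 : x.1 = z.1 * (u : ℤ) := by rw [hx]
  have hx2 : x.2 = z.2 * (u : ℤ) := by rw [hx]
  refine ⟨?_, ?_, ?_⟩
  · simp only [fHit, satC]
    constructor
    · rintro ⟨v, hv, h1, h2, h3, h4⟩
      refine ⟨v, hv, ?_⟩
      rw [F2_sd_le_iff]
      rw [sub_mul, one_mul] at h1 h3
      rw [add_mul, one_mul] at h2 h4
      omega
    · rintro ⟨v, hv, h⟩
      rw [F2_sd_le_iff] at h
      refine ⟨v, hv, ?_⟩
      rw [sub_mul, add_mul, sub_mul, add_mul, one_mul]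
      omega
  · simp only [fHit, satO]
    rintro ⟨v, hv, h1, h2, h3, h4⟩
    refine ⟨v, hv, ?_⟩
    rw [F2_sd_le_iff]
    have e1 : (z.1 - 1 - 1) * (u : ℤ) = z.1 * u - 2 * u := by ring
    have e2 : (z.1 + 1 + 1) * (u : ℤ) = z.1 * u + 2 * u := by ring
    have e3 : (z.2 - 1 - 1) * (u : ℤ) = z.2 * u - 2 * u := by ring
    have e4 : (z.2 + 1 + 1) * (u : ℤ) = z.2 * u + 2 * u := by ring
    rw [e1] at h1
    rw [e2] at h2
    rw [e3] at h3
    rw [e4] at h4
    push_cast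
    omega
  · intro r R hr hR
    have hru : 2 * u ≤ r * u := Nat.mul_le_mul_right u hr
    have hRu : (2 * r + 2) * u ≤ R * u := Nat.mul_le_mul_right u hR
    have hRu' : 2 * (r * u) + 2 * u ≤ R * u := by
      calc 2 * (r * u) + 2 * u = (2 * r + 2) * u := by ring
        _ ≤ R * u := hRu
    have hsd : ∀ v : V, (sd x v < R * u ↔ (z.1 * (u : ℤ) - (R : ℤ) * u < v.1 ∧
        v.1 < z.1 * (u : ℤ) + (R : ℤ) * u) ∧ z.2 * (u : ℤ) - (R : ℤ) * u < v.2 ∧
        v.2 < z.2 * (u : ℤ) + (R : ℤ) * u) := by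
      intro v
      rw [F2_sd_lt_iff, hx1, hx2]
      push_cast
      exact Iff.rfl
    have hsd2 : ∀ v : V, (sd x v ≤ r * u ↔ (z.1 * (u : ℤ) - (r : ℤ) * u ≤ v.1 ∧
        v.1 ≤ z.1 * (u : ℤ) + (r : ℤ) * u) ∧ z.2 * (u : ℤ) - (r : ℤ) * u ≤ v.2 ∧
        v.2 ≤ z.2 * (u : ℤ) + (r : ℤ) * u) := by
      intro v
      rw [F2_sd_le_iff, hx1, hx2]
      push_cast
      exact Iff.rfl
    constructor
    · simp only [fGap, satC, sub_mul, add_mul]
      constructor
      · rintro ⟨⟨h1, h2⟩, h3, h4⟩ v hv ⟨h5, h6⟩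
        rw [hsd] at h6
        have h5' : ¬ sd x v ≤ r * u := not_le.2 h5
        rw [hsd2] at h5'
        by_cases c1 : v.1 < z.1 * (u : ℤ) - (r : ℤ) * u
        · exact h1 ⟨v, hv, by omega, by omega, by omega, by omega⟩
        by_cases c2 : z.1 * (u : ℤ) + (r : ℤ) * u < v.1
        · exact h2 ⟨v, hv, by omega, by omega, by omega, by omega⟩
        by_cases c3 : v.2 < z.2 * (u : ℤ) - (r : ℤ) * u
        · exact h3 ⟨v, hv, by omega, by omega, by omega, by omega⟩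
        by_cases c4 : z.2 * (u : ℤ) + (r : ℤ) * u < v.2
        · exact h4 ⟨v, hv, by omega, by omega, by omega, by omega⟩
        apply h5'
        omega
      · intro h
        have key : ∀ v ∈ X, (z.1 * (u : ℤ) - (R : ℤ) * u < v.1 ∧
            v.1 < z.1 * (u : ℤ) + (R : ℤ) * u) ∧ (z.2 * (u : ℤ) - (R : ℤ) * u < v.2 ∧
            v.2 < z.2 * (u : ℤ) + (R : ℤ) * u) → (z.1 * (u : ℤ) - (r : ℤ) * u ≤ v.1 ∧
            v.1 ≤ z.1 * (u : ℤ) + (r : ℤ) * u) ∧ z.2 * (u : ℤ) - (r : ℤ) * u ≤ v.2 ∧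
            v.2 ≤ z.2 * (u : ℤ) + (r : ℤ) * u := by
          intro v hv h1
          by_contra h2
          exact h v hv ⟨not_le.1 fun h3 => h2 ((hsd2 v).1 h3), (hsd v).2 h1⟩
        refine ⟨⟨?_, ?_⟩, ?_, ?_⟩
        · rintro ⟨v, hv, h1, h2, h3, h4⟩
          have := key v hv ⟨⟨by omega, by omega⟩, by omega, by omega⟩
          omega
        · rintro ⟨v, hv, h1, h2, h3, h4⟩
          have := key v hv ⟨⟨by omega, by omega⟩, by omega, by omega⟩
          omega
        · rintro ⟨v, hv, h1, h2, h3, h4⟩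
          have := key v hv ⟨⟨by omega, by omega⟩, by omega, by omega⟩
          omega
        · rintro ⟨v, hv, h1, h2, h3, h4⟩
          have := key v hv ⟨⟨by omega, by omega⟩, by omega, by omega⟩
          omega
    · simp only [fGap, satO, sub_mul, add_mul, one_mul]
      rintro ⟨⟨h1, h2⟩, h3, h4⟩ v hv ⟨h5, h6⟩
      have h5a : 2 * (r * u) ≤ sd x v + 1 := by
        rw [← mul_assoc]
        exact h5
      have h7 : sd x v < R * u := by omega
      have h8 : ¬ sd x v ≤ r * u + u - 1 := by omega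
      have h9 : sd x v ≤ R * u - u := by omega
      have hx1' := hx1
      have hx2' := hx2
      have h8' : ¬ ((z.1 * (u : ℤ) - (r : ℤ) * u - u + 1 ≤ v.1 ∧
          v.1 ≤ z.1 * (u : ℤ) + (r : ℤ) * u + u - 1) ∧
          z.2 * (u : ℤ) - (r : ℤ) * u - u + 1 ≤ v.2 ∧
          v.2 ≤ z.2 * (u : ℤ) + (r : ℤ) * u + u - 1) := by
        intro h
        apply h8
        rw [F2_sd_le_iff, hx1, hx2]
        have e : ((r * u + u - 1 : ℕ) : ℤ) = (r : ℤ) * u + u - 1 := by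
          rw [Nat.cast_sub (by omega)]
          push_cast
          ring
        rw [e]
        omega
      have h9' : (z.1 * (u : ℤ) - (R : ℤ) * u + u ≤ v.1 ∧
          v.1 ≤ z.1 * (u : ℤ) + (R : ℤ) * u - u) ∧
          z.2 * (u : ℤ) - (R : ℤ) * u + u ≤ v.2 ∧
          v.2 ≤ z.2 * (u : ℤ) + (R : ℤ) * u - u := by
        rw [F2_sd_le_iff, hx1, hx2] at h9
        have e : ((R * u - u : ℕ) : ℤ) = (R : ℤ) * u - u := by
          rw [Nat.cast_sub (by omega)]
          push_cast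
          ring
        rw [e] at h9
        omega
      by_cases c1 : v.1 ≤ z.1 * (u : ℤ) - (r : ℤ) * u - u
      · exact h1 ⟨v, hv, by omega, by omega, by omega, by omega⟩
      by_cases c2 : z.1 * (u : ℤ) + (r : ℤ) * u + u ≤ v.1
      · exact h2 ⟨v, hv, by omega, by omega, by omega, by omega⟩
      by_cases c3 : v.2 ≤ z.2 * (u : ℤ) - (r : ℤ) * u - u
      · exact h3 ⟨v, hv, by omega, by omega, by omega, by omega⟩
      by_cases c4 : z.2 * (u : ℤ) + (r : ℤ) * u + u ≤ v.2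
      · exact h4 ⟨v, hv, by omega, by omega, by omega, by omega⟩
      apply h8'
      omega

end TP
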