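import Pool.Agent.helper98.SP.SpecGA

set_option autoImplicit false

namespace TP

open DP MeasureTheory

/-- counterclockwise distance -/
noncomputable def GD3_D (x : V) (n : ℕ) (u w : V) : ℤ :=
  if pos x n u ≤ pos x n w then pos x n w - pos x n u else pos x n w - pos x n u + 8 * n

theorem GD3_D_bd (hPO : PO_stmt) {x : V} {n : ℕ} (hn : 1 ≤ n) {u w : V} (hu : u ∈ bd x n)
    (hw : w ∈ bd x n) : 0 ≤ GD3_D x n u w ∧ GD3_D x n u w < 8 * n := by
  have h1 := hPO.1 x n u hn hu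
  have h2 := hPO.1 x n w hn hw
  unfold GD3_D
  split_ifs <;> omega

theorem GD3_arc (hPO : PO_stmt) {x : V} {n : ℕ} (hn : 1 ≤ n) {u v w : V} (hu : u ∈ bd x n)
    (hv : v ∈ bd x n) (hw : w ∈ bd x n) :
    onArc x n u v w ↔ GD3_D x n u w ≤ GD3_D x n u v := by
  have h1 := hPO.1 x n u hn hu
  have h2 := hPO.1 x n v hn hv
  have h3 := hPO.1 x n w hn hw
  unfold onArc GD3_D
  constructor
  · rintro ⟨-, -, -, h⟩
    split_ifs at h ⊢ <;> omega
  · intro h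
    refine ⟨hu, hv, hw, ?_⟩
    split_ifs at h ⊢ <;> omega

theorem GD3_D_inj (hPO : PO_stmt) {x : V} {n : ℕ} (hn : 1 ≤ n) {u w w' : V} (hu : u ∈ bd x n)
    (hw : w ∈ bd x n) (hw' : w' ∈ bd x n) (h : GD3_D x n u w = GD3_D x n u w') : w = w' := by
  have h1 := hPO.1 x n u hn hu
  have h2 := hPO.1 x n w hn hw
  have h3 := hPO.1 x n w' hn hw'
  refine hPO.2.1 x n w w' hn hw hw' ?_
  unfold GD3_D at h
  split_ifs at h <;> omega

theorem GD3_D_ex (hPO : PO_stmt) {x : V} {n : ℕ} (hn : 1 ≤ n) {u : V} (hu : u ∈ bd x n)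
    (t : ℤ) (h0 : 0 ≤ t) (h1 : t < 8 * n) : ∃ w ∈ bd x n, GD3_D x n u w = t := by
  have h2 := hPO.1 x n u hn hu
  by_cases h : pos x n u + t ≤ 8 * n
  · obtain ⟨w, hw, hwp⟩ := hPO.2.2.1 x n (pos x n u + t) hn (by omega) h
    refine ⟨w, hw, ?_⟩
    unfold GD3_D
    rw [hwp]
    split_ifs <;> omega
  · obtain ⟨w, hw, hwp⟩ := hPO.2.2.1 x n (pos x n u + t - 8 * n) hn (by omega) (by omega)
    refine ⟨w, hw, ?_⟩
    unfold GD3_D
    rw [hwp]
    split_ifs <;> omega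

theorem GD3_nxt (hPO : PO_stmt) {x : V} {n : ℕ} (hn : 1 ≤ n) {u a b : V} (hu : u ∈ bd x n)
    (ha : a ∈ bd x n) (hb : b ∈ bd x n) (h : GD3_D x n u b = GD3_D x n u a + 1) :
    nxt x n a b := by
  have h1 := hPO.1 x n u hn hu
  have h2 := hPO.1 x n a hn ha
  have h3 := hPO.1 x n b hn hb
  refine ⟨ha, hb, ?_⟩
  unfold GD3_D at h
  split_ifs at h <;> omega

/-- the point before the base point -/
theorem GD3_nxt_last (hPO : PO_stmt) {x : V} {n : ℕ} (hn : 1 ≤ n) {u b : V} (hu : u ∈ bd x n)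
    (hb : b ∈ bd x n) (h : GD3_D x n u b = 8 * n - 1) :
    nxt x n b u := by
  have h1 := hPO.1 x n u hn hu
  have h3 := hPO.1 x n b hn hb
  refine ⟨hb, hu, ?_⟩
  unfold GD3_D at h
  split_ifs at h <;> omega

theorem GD3_D_self (x : V) (n : ℕ) (u : V) : GD3_D x n u u = 0 := by
  unfold GD3_D; simp

/-- interface edges of a set of sites of the circle -/
theorem GD3_arcs (hPO : PO_stmt) {x : V} {n : ℕ} (hn : 1 ≤ n) {u v : V} (hu : u ∈ bd x n)
    (hv : v ∈ bd x n) (C : Set V) (huC : u ∈ C) (hvC : v ∉ C)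
    (hnb : ∀ w ∈ C, ¬ Adj w v) :
    ∃ a b a' b' : V, a ∈ C ∧ a' ∈ C ∧ nxt x n a b ∧ nxt x n b' a' ∧
      (∀ w, onArc x n b b' w → w ∉ C) ∧ b ∈ bd x n ∧ b' ∈ bd x n ∧
      0 < GD3_D x n u b ∧ GD3_D x n u b < GD3_D x n u v ∧ GD3_D x n u v < GD3_D x n u b' := by
  classical
  have hDv := GD3_D_bd hPO hn hu hv
  have huv : u ≠ v := fun h => hvC (h ▸ huC)
  have hT0 : GD3_D x n u v ≠ 0 := by
    intro h
    exact huv (GD3_D_inj hPO hn hu hu hv (by rw [h, GD3_D_self]))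
  obtain ⟨T, hTc⟩ : ∃ T : ℕ, (T : ℤ) = GD3_D x n u v := ⟨_, Int.toNat_of_nonneg hDv.1⟩
  have hT1 : 1 ≤ T := by omega
  have hT8 : T < 8 * n := by omega
  obtain ⟨P, hP⟩ : ∃ P : ℕ → Prop, ∀ t, P t ↔ ∃ w ∈ bd x n, w ∈ C ∧ GD3_D x n u w = t :=
    ⟨fun t => ∃ w ∈ bd x n, w ∈ C ∧ GD3_D x n u w = t, fun t => Iff.rfl⟩
  have hP0 : P 0 := (hP 0).2 ⟨u, hu, huC, by rw [GD3_D_self]; rfl⟩
  have hPT : ¬ P T := by
    rw [hP]
    rintro ⟨w, hw, hwC, hwT⟩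
    have : w = v := GD3_D_inj hPO hn hu hw hv (by rw [hwT, hTc])
    exact hvC (this ▸ hwC)
  obtain ⟨s, hsP, hsT, hsgr⟩ : ∃ s, P s ∧ s ≤ T - 1 ∧ ∀ t, s < t → t < T → ¬ P t :=
    ⟨Nat.findGreatest P (T - 1), Nat.findGreatest_spec (Nat.zero_le _) hP0,
      Nat.findGreatest_le _, fun t h1 h2 => Nat.findGreatest_is_greatest h1 (by omega)⟩
  have hex : ∃ t, T < t ∧ (P t ∨ t = 8 * n) := ⟨8 * n, hT8, Or.inr rfl⟩
  obtain ⟨s', hs'T, hs'P, hs'8, hs'min⟩ : ∃ s', T < s' ∧ (P s' ∨ s' = 8 * n) ∧ s' ≤ 8 * n ∧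
      ∀ t, T < t → t < s' → ¬ P t :=
    ⟨Nat.find hex, (Nat.find_spec hex).1, (Nat.find_spec hex).2,
      Nat.find_min' hex ⟨hT8, Or.inr rfl⟩,
      fun t h1 h2 h3 => Nat.find_min hex h2 ⟨h1, Or.inl h3⟩⟩
  clear hex
  obtain ⟨a, ha, haC, haD⟩ := (hP s).1 hsP
  obtain ⟨b, hb, hbD⟩ := GD3_D_ex hPO hn hu ((s : ℤ) + 1) (by omega) (by omega)
  obtain ⟨b', hb', hb'D⟩ := GD3_D_ex hPO hn hu ((s' : ℤ) - 1) (by omega) (by omega)
  have hab : nxt x n a b := GD3_nxt hPO hn hu ha hb (by omega)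
  -- `a'`
  have ha' : ∃ a' : V, a' ∈ C ∧ nxt x n b' a' := by
    rcases hs'P with hs'P | h8
    · obtain ⟨w, hw, hwC, hwD⟩ := (hP s').1 hs'P
      exact ⟨w, hwC, GD3_nxt hPO hn hu hb' hw (by omega)⟩
    · exact ⟨u, huC, GD3_nxt_last hPO hn hu hb' (by rw [hb'D, h8]; push_cast; ring)⟩
  obtain ⟨a', ha'C, hb'a'⟩ := ha'
  have hsT2 : s + 1 ≠ T := by
    intro h
    have hbv : b = v := GD3_D_inj hPO hn hu hb hv (by omega)
    exact hnb a haC (hbv ▸ hPO.2.2.2 x n a b hn hab)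
  have hs'T2 : s' ≠ T + 1 := by
    intro h
    have hbv : b' = v := GD3_D_inj hPO hn hu hb' hv (by omega)
    exact hnb a' ha'C (hbv ▸ (hPO.2.2.2 x n b' a' hn hb'a').symm)
  refine ⟨a, b, a', b', haC, ha'C, hab, hb'a', ?_, hb, hb', by omega, by omega, by omega⟩
  intro w hw hwC
  have hwb := hw.2.2.1
  have h1 := GD3_D_bd hPO hn hu hwb
  have hwD : (s : ℤ) + 1 ≤ GD3_D x n u w ∧ GD3_D x n u w ≤ (s' : ℤ) - 1 := by
    have p1 := hPO.1 x n u hn hu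
    have p2 := hPO.1 x n b hn hb
    have p3 := hPO.1 x n b' hn hb'
    have p4 := hPO.1 x n w hn hwb
    have q := hw.2.2.2
    rw [← hbD, ← hb'D]
    have r : GD3_D x n u b < GD3_D x n u b' := by omega
    unfold GD3_D at r ⊢
    split_ifs at q r ⊢ <;> omega
  have hPw : P (GD3_D x n u w).toNat := (hP _).2 ⟨w, hwb, hwC, by rw [Int.toNat_of_nonneg h1.1]⟩
  rcases lt_trichotomy (GD3_D x n u w).toNat T with h | h | h
  · exact hsgr _ (by omega) h hPw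
  · exact hPT (h ▸ hPw)
  · exact hs'min _ h (by omega) hPw

theorem GD3_conn_fl (c : V → Bool) (R : Set V) (u v : V) :
    Conn (fl c) true R u v ↔ Conn c false R u v := by
  unfold Conn fl
  have : {w | w ∈ R ∧ (!(c w)) = true} = {w | w ∈ R ∧ c w = false} := by
    ext w; simp
  rw [this]

/-- **GD3** -/
theorem GD3 (hGD0 : GD0_stmt) (hFO : FO_stmt) (hOF : OF_stmt) (hSI : SI_stmt) (hCX : CX_stmt)
    (hPO : PO_stmt) (hAC : AC_stmt) : GD3_stmt := by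
  intro c x m n hx hm hmn hfour hnhb
  have hn : 1 ≤ n := by omega
  obtain ⟨u₁, u₂, u₃, u₄, halt, h1, h2, h3, h4, ho1, ho2, ho3, ho4⟩ := hFO c x m n hx hm hmn hfour
  obtain ⟨hu₁, p₁, hp₁, hc₁⟩ := ho1
  obtain ⟨hu₃, p₃, hp₃, hc₃⟩ := ho3
  rw [h1] at hc₁
  rw [h3] at hc₃
  have hn13 : ¬ Conn c true (ann x m n) u₁ u₃ := by
    have := hOF c true x m n hx hm hmn u₁ u₂ u₃ u₄ halt h1 (by simpa using h2) h3
      (by simpa using h4)
    exact this ⟨hu₁, p₁, hp₁, by rw [h1]; exact hc₁⟩ ho2 ⟨hu₃, p₃, hp₃, by rw [h3]; exact hc₃⟩ ho4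
  have hnbox : ¬ Conn c true (box x n) u₁ u₃ := by
    intro h
    exact hnhb ⟨u₁, hu₁, u₃, hu₃, ⟨p₁, hp₁, hc₁.symm⟩, ⟨p₃, hp₃, hc₃.symm⟩, hn13, h⟩
  set C : Set V := {z | Conn c true (box x n) u₁ z} with hC
  have hbdbox : ∀ w ∈ bd x n, w ∈ box x n := fun w hw => le_of_eq hw
  have hu₁C : u₁ ∈ C := DP.Con.refl ⟨hbdbox _ hu₁, h1⟩
  have hu₃C : u₃ ∉ C := hnbox
  have hCsub : C ⊆ box x n := fun z hz => Conn.mem_right hz
  obtain ⟨a, b, a', b', haC, ha'C, hab, hb'a', harc, hb, hb', hd1, hd2, hd3⟩ :=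
    GD3_arcs hPO hn hu₁ hu₃ C hu₁C hu₃C (by
      intro w hw hadj
      exact hnbox (Con.tail hw hadj ⟨hbdbox _ hu₃, h3⟩))
  have hCon : Con C a a' := by
    have h5 : ∀ z ∈ C, Con C u₁ z := fun z hz => Con.cluster hz
    exact (h5 a haC).symm.trans (h5 a' ha'C)
  have hwh := hGD0 x n C a a' b b' hn hCsub hCon hab hb'a' harc
  have hwhite : ∀ w ∈ nbd (box x n) C, w ∈ box x n ∧ c w = false := by
    rintro w ⟨hw1, hw2, z, hz, hzw⟩
    refine ⟨hw1, ?_⟩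
    by_contra hcw
    have hcw' : c w = true := by simpa using hcw
    exact hw2 (Con.tail hz hzw ⟨hw1, hcw'⟩)
  have hbb : Conn c false (box x n) b b' := Con.mono hwhite hwh
  -- alternation
  have hdb := GD3_D_bd hPO hn hu₁ hb
  have hdb' := GD3_D_bd hPO hn hu₁ hb'
  have halt' : alt x n u₁ b u₃ b' := by
    refine ⟨⟨hu₁, hb, hu₃, hb'⟩, ?_, Or.inl ⟨?_, ?_⟩⟩
    · have e0 := GD3_D_self x n u₁
      have n1 : u₁ ≠ b := by rintro h; rw [← h, e0] at hd1; exact lt_irrefl _ hd1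
      have n2 : u₁ ≠ u₃ := fun h => hu₃C (h ▸ hu₁C)
      have n3 : u₁ ≠ b' := by rintro h; rw [← h, e0] at hd3; omega
      have n4 : b ≠ u₃ := by rintro h; rw [h] at hd2; exact lt_irrefl _ hd2
      have n5 : b ≠ b' := by rintro h; rw [h] at hd2; omega
      have n6 : u₃ ≠ b' := by rintro h; rw [← h] at hd3; exact lt_irrefl _ hd3
      simp [n1, n2, n3, n4, n5, n6]
    · rw [GD3_arc hPO hn hu₁ hu₃ hb]; exact hd2.le
    · have p1 := hPO.1 x n u₁ hn hu₁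
      have p2 := hPO.1 x n u₃ hn hu₃
      have p3 := hPO.1 x n b' hn hb'
      refine ⟨hu₃, hu₁, hb', ?_⟩
      have d0 : 0 < GD3_D x n u₁ u₃ := by omega
      unfold GD3_D at hd3 d0
      split_ifs at hd3 d0 ⊢ <;> omega
  -- crossing points
  have hbox13 : Con ({w | w ∈ ann x m n ∧ c w = true} ∪ box x m) u₁ u₃ := by
    have e1 : Con ({w | w ∈ ann x m n ∧ c w = true} ∪ box x m) u₁ p₁ :=
      Con.mono Set.subset_union_left hc₁
    have e2 : Con ({w | w ∈ ann x m n ∧ c w = true} ∪ box x m) p₁ p₃ :=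
      Con.mono Set.subset_union_right (hCX.1 x m p₁ p₃ (le_of_eq hp₁) (le_of_eq hp₃))
    have e3 : Con ({w | w ∈ ann x m n ∧ c w = true} ∪ box x m) p₃ u₃ :=
      Con.mono Set.subset_union_left hc₃.symm
    exact (e1.trans e2).trans e3
  have hsub13 : ({w | w ∈ ann x m n ∧ c w = true} ∪ box x m) ⊆ box x n := by
    rintro w (hw | hw)
    · exact hw.1.2
    · exact le_trans hw hmn.le
  have hnoout : ∀ y y' : V, (y = b ∧ y' = b' ∨ y = b' ∧ y' = b) →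
      ¬ Con ({w | w ∈ box x n ∧ c w = false} ∩ {w | m < sd x w}) y y' := by
    intro y y' hyy hcon
    have hcon' : Con ({w | w ∈ box x n ∧ c w = false} ∩ {w | m < sd x w}) b b' := by
      rcases hyy with ⟨rfl, rfl⟩ | ⟨rfl, rfl⟩
      · exact hcon
      · exact hcon.symm
    obtain ⟨z, hz1, hz2⟩ := hSI x n u₁ b u₃ b' _ _ hx hn halt' hsub13
      (fun w hw => hw.1.1 :
        ({w | w ∈ box x n ∧ c w = false} ∩ {w | m < sd x w}) ⊆ box x n) hbox13 hcon'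
    rcases hz1 with hz1 | hz1
    · have e1 : c z = true := hz1.2
      have e2 : c z = false := hz2.1.2
      rw [e1] at e2
      exact absurd e2 (by decide)
    · have e1 : sd x z ≤ m := hz1
      have e2 : m < sd x z := hz2.2
      omega
  have hcross : ∀ y y' : V, (y = b ∧ y' = b' ∨ y = b' ∧ y' = b) → y ∈ bd x n →
      Conn c false (box x n) y y' → ∃ p ∈ bd x m, Conn c false (ann x m n) y p := by
    intro y y' hyy hy hcon
    by_contra hno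
    apply hnoout y y' hyy
    -- all sites of the white path stay outside
    refine Con.induct' hcon
      (fun z => Con ({w | w ∈ box x n ∧ c w = false} ∩ {w | m < sd x w}) y z) ?_ ?_
    · refine DP.Con.refl ⟨DP.Con.mem_left hcon, ?_⟩
      have : sd x y = n := hy
      show m < sd x y
      omega
    · intro z z' _ hz' hadj hP
      by_cases hlt : m < sd x z'
      · exact hP.step hadj ⟨hz', hlt⟩
      · exfalso
        have hz : m < sd x z := hP.mem_right.2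
        have h5 := hadj.sd_le x
        have h6 : sd x z' = m := by omega
        apply hno
        refine ⟨z', h6, ?_⟩
        refine Con.step (Con.mono ?_ hP) hadj ⟨⟨by omega, by omega⟩, hz'.2⟩
        rintro w ⟨⟨hw1, hw2⟩, hw3⟩
        exact ⟨⟨le_of_lt hw3, hw1⟩, hw2⟩
  obtain ⟨q, hq, hqc⟩ := hcross b b' (Or.inl ⟨rfl, rfl⟩) hb hbb
  obtain ⟨q', hq', hqc'⟩ := hcross b' b (Or.inr ⟨rfl, rfl⟩) hb' hbb.symm
  have hcb : c b = false := Conn.colour_left hbb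
  have hcb' : c b' = false := Conn.colour_right hbb
  have halt'' : alt x n b u₃ b' u₁ := hAC.2.2.1 x n u₁ b u₃ b' hn halt'
  have hsep : ¬ Conn c false (ann x m n) b b' :=
    hOF c false x m n hx hm hmn b u₃ b' u₁ halt'' hcb (by simpa using h3) hcb' (by simpa using h1)
      ⟨hb, q, hq, by rw [hcb]; exact hqc⟩ ⟨hu₃, p₃, hp₃, by rw [h3]; exact hc₃⟩
      ⟨hb', q', hq', by rw [hcb']; exact hqc'⟩ ⟨hu₁, p₁, hp₁, by rw [h1]; exact hc₁⟩
  refine ⟨b, hb, b', hb', ⟨q, hq, ?_⟩, ⟨q', hq', ?_⟩, ?_, ?_⟩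
  · rw [GD3_conn_fl]; exact hqc.symm
  · rw [GD3_conn_fl]; exact hqc'.symm
  · rw [GD3_conn_fl]; exact hsep
  · rw [GD3_conn_fl]; exact hbb

end TP
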