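import Pool.Agent.helper33.SP.SpecC1S
import Pool.Agent.helper64.TP.Conv

/-!
# Project sp, piece C1 (spectral side), module UJ19: the chain lemma for the weights
-/

namespace TP

open DP MeasureTheory

theorem UJ19_Pr_nonneg (F : Set (V → Bool)) : 0 ≤ Pr F := by
  unfold Pr
  exact measureReal_nonneg

theorem UJ19_Pr_le_one (F : Set (V → Bool)) : Pr F ≤ 1 := by
  unfold Pr
  have : IsProbabilityMeasure P1 := by
    unfold P1
    infer_instance
  exact measureReal_le_one

theorem UJ19 (h13 : UJ13_stmt) (h18 : UJ18_stmt) (hCHE : K.CHE_stmt) (hWB : K.WB_stmt)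
    (hLQ : K.LQ_stmt) (h7 : UI7_stmt) : UJ19_stmt := by
  obtain ⟨c, g, k₁, hc, hc2, hg, hgk, h18⟩ := h18
  obtain ⟨cE, hcE, i₁, hCHE⟩ := hCHE
  obtain ⟨-, -, -, -, -, -, -, hW8⟩ := hWB
  refine ⟨c, cE * c ^ 2, g, k₁ + i₁ + 2 * g + 20, hc, hc2, by positivity, hg, by omega, ?_⟩
  intro t m J N p x ht hm hp0 hpj hpJ hx
  have hmono : Monotone p := monotone_nat_of_le_succ fun j => by
    have := hpj j
    omega
  have hx' : Even (x.1 + x.2) := Int.even_iff.2 hx
  have ha4 : ∀ q r, 0 ≤ a4 q r ∧ a4 q r ≤ 1 := fun q r =>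
    ⟨UJ19_Pr_nonneg _, UJ19_Pr_le_one _⟩
  have hpt : ∀ j, t + k₁ + i₁ + 2 * g + 20 ≤ p j := by
    intro j
    have := hmono (Nat.zero_le j)
    omega
  set θ : ℕ → ℝ := fun j => c * a4 (p j) (p j + m) with hθ
  have hθ0 : ∀ j, 0 ≤ θ j := fun j => mul_nonneg hc.le (ha4 _ _).1
  have hθ1 : ∀ j, θ j ≤ 1 / 2 := by
    intro j
    have h1 := (ha4 (p j) (p j + m)).2
    have h2 := (ha4 (p j) (p j + m)).1
    simp only [hθ]
    nlinarith
  have hgd : ∀ j, Loc (gdE (θ j) x (p j) m g)
      (ann x (2 ^ (p j - g - 1)) (2 ^ (p j + m + g + 1))) := by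
    intro j
    have := hpt j
    exact (h13 (θ j) x (p j) m g (by omega) (by omega)).1
  have hF4 : ∀ a b, Loc (F4 x a b) (ann x (2 ^ a) (2 ^ b)) := fun a b => hLQ.1 x a b
  have hB4 : ∀ a b, a ≤ b → Loc (B4 x a b) (ann x (2 ^ a) (2 ^ b)) := fun a b h =>
    hLQ.2.2.1 x a b h
  have hWts : Wts x t J (fun j => p j - g - 1) (fun j => p j + m + g + 1)
      (fun j => wgt (θ j) x (p j) m g) := by
    refine ⟨?_, ?_, ?_, ?_, ?_, ?_⟩
    · intro j _ b
      unfold wgt
      exact Set.indicator_nonneg (fun _ _ => hθ0 j) b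
    · intro j _ b
      unfold wgt
      classical
      rw [Set.indicator_apply]
      split_ifs
      · exact hθ1 j
      · norm_num
    · intro j _
      exact (hW8 (gdE (θ j) x (p j) m g) (F4 x t N) _ _ (θ j) (hgd j) (hF4 t N)).1
    · intro j _
      have := hpt j
      omega
    · intro j _
      omega
    · intro j j' hjj _
      have h1 := hpj j
      have h2 : p (j + 1) ≤ p j' := hmono hjj
      change p j + m + g + 1 + 6 ≤ p j' - g - 1
      omega
  have key := hCHE x t N J (fun j => p j - g - 1) (fun j => p j + m + g + 1)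
    (fun j => wgt (θ j) x (p j) m g) (fun j => c ^ 2 * a4 (p j) (p j + m)) hx' (by omega) hWts
    (by
      intro j hj
      have h1 := hpj j
      have h2 : p (j + 1) ≤ p J := hmono hj
      change p j + m + g + 1 + 7 ≤ N
      omega)
    (fun j _ => mul_nonneg (by positivity) (ha4 _ _).1)
    (by
      intro j _
      have h1 := hpt j
      have e1 : p j - g - 1 - 1 = p j - g - 2 := by omega
      have e2 : p j + m + g + 1 + 1 = p j + m + g + 2 := by omega
      change c ^ 2 * a4 (p j) (p j + m) * Pr (F4 x (p j - g - 1) (p j + m + g + 1)) ≤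
        EZ (wgt (θ j) x (p j) m g) (B4 x (p j - g - 1 - 1) (p j + m + g + 1 + 1))
      rw [e1, e2]
      have h2 := (hW8 (gdE (θ j) x (p j) m g) (B4 x (p j - g - 2) (p j + m + g + 2)) _ _ (θ j)
        (hgd j) (hB4 _ _ (by omega))).2
      unfold wgt
      rw [h2]
      have h3 := h18 (p j) m x (by omega) (by omega) hx
      calc c ^ 2 * a4 (p j) (p j + m) * Pr (F4 x (p j - g - 1) (p j + m + g + 1))
          = θ j * (c * Pr (F4 x (p j - g - 1) (p j + m + g + 1))) := by
            simp only [hθ]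
            ring
        _ ≤ θ j * Pr (gdE (θ j) x (p j) m g ∩ B4 x (p j - g - 2) (p j + m + g + 2)) :=
            mul_le_mul_of_nonneg_left h3 (hθ0 j))
  have e3 : Pr (F4 x t N) = a4 t N := (h7.2 x (2 ^ t) (2 ^ N) hx).1
  rw [e3] at key
  have e4 : EZ (fun b => ∏ j ∈ Finset.range J, (1 - wgt (θ j) x (p j) m g b)) (F4 x t N) =
      ∫ b, (F4 x t N).indicator 1 b * ∏ j ∈ Finset.range J, (1 - wgt (θ j) x (p j) m g b) ∂P1 := by
    unfold EZ
    rw [← integral_indicator (hF4 t N).measurableSet]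
    refine integral_congr_ae (Filter.Eventually.of_forall fun b => ?_)
    by_cases hb : b ∈ F4 x t N
    · simp only [Set.indicator_of_mem hb, Pi.one_apply, one_mul]
    · simp only [Set.indicator_of_notMem hb, zero_mul]
  rw [← e4]
  refine key.trans (le_of_eq ?_)
  congr 2
  rw [← Finset.mul_sum]
  ring

end TP
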