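import Pool.Agent.helper33.SP.SpecC2S

set_option autoImplicit false

namespace TP

open DP MeasureTheory

/-- linearity of `av` for sums as functions -/
theorem VA2_add (h5 : UJ5_stmt) (U : Set V) (g h : (V → Bool) → ℝ) (hg : FinR g) (hh : FinR h) :
    av U (fun b => g b + h b) = fun b => av U g b + av U h b := by
  funext b
  exact (h5.2.2.1 U g h hg hh).1 b

theorem VA2_neg (h5 : UJ5_stmt) (U : Set V) (g : (V → Bool) → ℝ) (hg : FinR g) :
    av U (fun b => - g b) = fun b => - av U g b := by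
  funext b
  have := (h5.2.2.1 U g g hg hg).2.1 (-1) b
  simpa using this

theorem VA2_finneg (g : (V → Bool) → ℝ) (hg : FinR g) : FinR (fun b => - g b) := by
  obtain ⟨Λ, h⟩ := hg
  exact ⟨Λ, fun b b' hb => by show - g b = - g b'; rw [h b b' hb]⟩

theorem VA2_finadd (g h : (V → Bool) → ℝ) (hg : FinR g) (hh : FinR h) :
    FinR (fun b => g b + h b) := by
  classical
  obtain ⟨Λ, h1⟩ := hg
  obtain ⟨Λ', h2⟩ := hh
  refine ⟨Λ ∪ Λ', fun b b' hb => ?_⟩
  show g b + h b = g b' + h b'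
  rw [h1 b b' fun v hv => hb v (by simp at hv ⊢; exact Or.inl hv),
    h2 b b' fun v hv => hb v (by simp at hv ⊢; exact Or.inr hv)]

theorem VA2_dladd (h5 : UJ5_stmt) (U : Set V) (g h : (V → Bool) → ℝ) (hg : FinR g) (hh : FinR h) :
    dl U (fun b => g b + h b) = fun b => dl U g b + dl U h b := by
  funext b
  unfold dl
  rw [VA2_add h5 U g h hg hh]
  ring

/-- `av A` and `dl U` commute for disjoint sets -/
theorem VA2_avdl (h5 : UJ5_stmt) (A U : Set V) (g : (V → Bool) → ℝ) (hg : FinR g)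
    (hd : Disjoint A U) : av A (dl U g) = dl U (av A g) := by
  have h1 : (dl U g) = fun b => g b + (fun b => - av U g b) b := by
    funext b; unfold dl; ring
  rw [h1, VA2_add h5 A g _ hg (VA2_finneg _ (h5.1 U g hg).1),
    VA2_neg h5 A _ (h5.1 U g hg).1]
  funext b
  show av A g b + - av A (av U g) b = av A g b - av U (av A g) b
  rw [h5.2.2.2.2.1 A U g hg hd b, h5.2.2.2.2.1 U A g hg hd.symm b, Set.union_comm]
  ring

/-- `dl U` and `dl U'` commute for disjoint sets -/
theorem VA2_dldl (h5 : UJ5_stmt) (U U' : Set V) (g : (V → Bool) → ℝ) (hg : FinR g)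
    (hd : Disjoint U U') : dl U (dl U' g) = dl U' (dl U g) := by
  funext b
  have h1 := congrFun (VA2_avdl h5 U U' g hg hd) b
  have h2 := congrFun (VA2_avdl h5 U' U g hg hd.symm) b
  have h3 := h5.2.2.2.2.1 U U' g hg hd b
  have h4 := h5.2.2.2.2.1 U' U g hg hd.symm b
  show dl U' g b - av U (dl U' g) b = dl U g b - av U' (dl U g) b
  rw [h1, h2]
  unfold dl
  rw [h3, h4, Set.union_comm]
  ring

/-- `dl U` kills functions which do not depend on the coins in `U` -/
theorem VA2_zero (U : Set V) (g : (V → Bool) → ℝ)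
    (hg : ∀ b b' : V → Bool, (∀ v, v ∉ U → b v = b' v) → g b = g b') : dl U g = fun _ => 0 := by
  funext b
  unfold dl av
  have h1 : ∀ b', g (mx U b b') = g b := by
    intro b'
    apply hg
    intro v hv
    unfold mx
    simp [hv]
  simp only [h1]
  haveI : IsProbabilityMeasure P1 := by unfold P1; infer_instance
  simp

theorem VA2_dlz (U : Set V) : dl U (fun _ => (0 : ℝ)) = fun _ => 0 := by
  apply VA2_zero
  intros; rfl

theorem VA2_dlflip (h1 : VA1_stmt) (B U : Set V) (g : (V → Bool) → ℝ) (hg : FinR g) :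
    dl U (fun b => g (flp B b)) = fun b => dl U g (flp B b) := by
  funext b
  unfold dl
  rw [h1.2.1 B U g b hg]

theorem VA2 (h1 : VA1_stmt) (h5 : UJ5_stmt) : VA2_stmt := by
  intro W A B U1 U2 g N hg hAW hAB hU1W hU2W hU12 hN hsum b
  have hAU1 : Disjoint A U1 := (hU1W.mono_right hAW).symm
  have hAU2 : Disjoint A U2 := (hU2W.mono_right hAW).symm
  set H : (V → Bool) → ℝ := av A g with hH
  have hHf : FinR H := (h5.1 A g hg).1
  set K : (V → Bool) → ℝ := dl U1 (dl U2 H) with hK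
  have hKf : FinR K := (h5.1 U1 _ (h5.1 U2 H hHf).2.1).2.1
  have hd2f : FinR (dl U2 g) := (h5.1 U2 g hg).2.1
  have hXf : FinR (dl U1 (dl U2 g)) := (h5.1 U1 _ hd2f).2.1
  have hAX : av A (dl U1 (dl U2 g)) = K := by
    rw [VA2_avdl h5 A U1 _ hd2f hAU1, VA2_avdl h5 A U2 g hg hAU2]
  have hWX : ∀ b, av W (dl U1 (dl U2 g)) b = av (W \ A) K b := by
    intro b
    rw [← hAX, h5.2.2.2.2.1 (W \ A) A _ hXf Set.disjoint_sdiff_left b,
      Set.diff_union_of_subset hAW]
  -- `K b + K (flp B b) = 0`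
  have hH'f : FinR (fun b => H (flp B b)) := h1.2.2.2.2.2 B H hHf
  have hNeq : (fun b => H b + (fun b => H (flp B b)) b) = N := by
    funext b; exact hsum b
  have hNf : FinR N := by rw [← hNeq]; exact VA2_finadd _ _ hHf hH'f
  have hN0 : dl U1 (dl U2 N) = fun _ => 0 := by
    rcases hN with hN | hN
    · rw [VA2_dldl h5 U1 U2 N hNf hU12, VA2_zero U1 N hN, VA2_dlz]
    · rw [VA2_zero U2 N hN, VA2_dlz]
  have hKK : ∀ b, K b + K (flp B b) = 0 := by
    intro b
    have e1 : dl U1 (dl U2 (fun b => H b + (fun b => H (flp B b)) b)) =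
        fun b => K b + K (flp B b) := by
      rw [VA2_dladd h5 U2 H _ hHf hH'f, VA2_dlflip h1 B U2 H hHf]
      rw [VA2_dladd h5 U1 (dl U2 H) (fun b => dl U2 H (flp B b)) (h5.1 U2 H hHf).2.1
        (h1.2.2.2.2.2 B _ (h5.1 U2 H hHf).2.1), VA2_dlflip h1 B U1 _ (h5.1 U2 H hHf).2.1]
    rw [hNeq, hN0] at e1
    exact (congrFun e1 b).symm
  have hKneg : (fun b => K (flp B b)) = fun b => - K b := by
    funext b
    have := hKK b
    linarith
  rw [hWX, hWX]
  have e2 : av (W \ A) K (flp (B \ W) b) = av (W \ A) K (flp B b) := by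
    apply h5.2.1 (W \ A) K _ _ hKf
    intro v hv
    unfold flp
    by_cases hvB : v ∈ B
    · by_cases hvW : v ∈ W
      · exfalso
        apply hv
        exact ⟨hvW, fun hvA => Set.disjoint_left.mp hAB hvA hvB⟩
      · simp [hvB, hvW]
    · simp [hvB]
  rw [e2, ← h1.2.1 B (W \ A) K b hKf, hKneg, VA2_neg h5 (W \ A) K hKf]

end TP
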